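import Pool.Agent.X277.PD.Coh

/-!
# Bounded generation
-/

set_option autoImplicit false
set_option linter.unusedSectionVars false

open Set Function

open scoped Pointwise

noncomputable section

namespace Pool.Agent.X277.PD

open Pool.Agent.X277.GS Pool.Agent.X277.PF

/-- `Λ` is a product of finitely many cyclic subgroups. -/
def BoundedlyGenerated (Λ : Type) [Group Λ] : Prop :=
  ∃ (r : ℕ) (g : Fin r → Λ), ∀ z : Λ, ∃ e : Fin r → ℤ, z = (List.ofFn fun i => g i ^ e i).prod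

/-- products of powers -/
def Prods {Λ : Type} [Group Λ] : List Λ → Set Λ
  | [] => {1}
  | g :: L => {z | ∃ (e : ℤ) (y : Λ), y ∈ Prods L ∧ z = g ^ e * y}

theorem mem_Prods {Λ : Type} [Group Λ] (r : ℕ) : ∀ (g : Fin r → Λ) (e : Fin r → ℤ),
    (List.ofFn fun i => g i ^ e i).prod ∈ Prods (List.ofFn g) := by
  induction r with
  | zero =>
    intro g e
    rw [List.ofFn_zero, List.ofFn_zero]
    rfl
  | succ r ih =>
    intro g e
    rw [List.ofFn_succ, List.ofFn_succ, List.prod_cons]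
    exact ⟨e 0, _, ih (fun i => g i.succ) fun i => e i.succ, rfl⟩

variable {p : ℕ} [hp : Fact p.Prime] {Γ : Type} [Group Γ] {Λ : Type} [Group Λ]

theorem exists_mu {d : ℕ} (x : Fin d → Γ) (hx : Subgroup.closure (range x) = ⊤)
    (hΛ : HasPQuotientsOf p Λ Γ) (k : ℕ) : ∃ μ : Λ →* BR p Γ k,
      (∀ g, ∃ y, μ g = fB p Γ k y) ∧ ∀ y, ∃ g, μ g = fB p Γ k y := by
  have hBfin : Finite (BR p Γ k) := finite_BR x hx k
  set G := (fB p Γ k).toHomUnits.range with hG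
  have hGp : IsPGroup p G := by
    rintro ⟨_, g, rfl⟩
    refine ⟨k + 1, Subtype.ext (Units.ext ?_)⟩
    exact fB_pow k g
  obtain ⟨π, hπ⟩ := hΛ G hGp ⟨(fB p Γ k).toHomUnits.rangeRestrict,
    (fB p Γ k).toHomUnits.rangeRestrict_surjective⟩
  refine ⟨(Units.coeHom _).comp (G.subtype.comp π), fun g => ?_, fun y => ?_⟩
  · obtain ⟨y, hy⟩ := (π g).2
    refine ⟨y, ?_⟩
    show (((π g : G) : (BR p Γ k)ˣ) : BR p Γ k) = _
    rw [← hy]
    rfl
  · obtain ⟨g, hg⟩ := hπ ⟨(fB p Γ k).toHomUnits y, y, rfl⟩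
    refine ⟨g, ?_⟩
    show (((π g : G) : (BR p Γ k)ˣ) : BR p Γ k) = _
    rw [hg]
    rfl

theorem nilp_fB (k : ℕ) (y : Γ) : (fB p Γ k y - 1) ^ (k + 1) = 0 := by
  have h1 : fB p Γ k y - 1 = mkB p Γ k (ge p y - 1) := by
    rw [map_sub, map_one]
    rfl
  rw [h1, ← map_pow]
  exact mkB_eq_zero (pow_mem_AI (ge_sub_mem y) _)

/-- the powers of `v - 1` -/
def PT {B : Type} [Ring B] (k : ℕ) (v : B) [DecidableEq B] : Finset B :=
  (Finset.range (k + 1)).image fun j => (v - 1) ^ j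

theorem pow_mem_span (k : ℕ) (y : Γ) [DecidableEq (BR p Γ k)] (e : ℕ) :
    fB p Γ k y ^ e ∈ Submodule.span (ZMod p) (PT k (fB p Γ k y) : Set (BR p Γ k)) := by
  set v := fB p Γ k y with hv
  have h1 : v ^ e = ∑ j ∈ Finset.range (e + 1), (v - 1) ^ j * (e.choose j : BR p Γ k) := by
    have h2 := (Commute.one_right (v - 1)).add_pow e
    rw [sub_add_cancel] at h2
    rw [h2]
    exact Finset.sum_congr rfl fun j _ => by rw [one_pow, mul_one]
  rw [h1]
  refine Submodule.sum_mem _ fun j _ => ?_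
  rw [← Nat.cast_commute, ← nsmul_eq_mul]
  refine nsmul_mem ?_ _
  rcases Nat.lt_or_ge j (k + 1) with h | h
  · exact Submodule.subset_span (Finset.mem_coe.2 (Finset.mem_image.2 ⟨j, Finset.mem_range.2 h, rfl⟩))
  · have h3 : (v - 1) ^ j = 0 := by
      rw [show j = (k + 1) + (j - (k + 1)) by omega, pow_add, nilp_fB, zero_mul]
    rw [h3]
    exact Submodule.zero_mem _

theorem zpow_eq (k : ℕ) (μ : Λ →* BR p Γ k) {g : Λ} {y : Γ} (hg : μ g = fB p Γ k y) (e : ℤ) :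
    ∃ n : ℕ, μ (g ^ e) = fB p Γ k y ^ n := by
  have hP : (0 : ℤ) < ((p ^ (k + 1) : ℕ) : ℤ) := by
    exact_mod_cast pow_pos (Fact.out : p.Prime).pos _
  have h1 : g ^ e = g ^ (e % ((p ^ (k + 1) : ℕ) : ℤ)) * (g ^ (p ^ (k + 1))) ^
      (e / ((p ^ (k + 1) : ℕ) : ℤ)) := by
    rw [← zpow_natCast g, ← zpow_mul, ← zpow_add, Int.emod_add_mul_ediv]
  obtain ⟨n, hn⟩ := Int.eq_ofNat_of_zero_le (Int.emod_nonneg e hP.ne')
  have h2 : μ (g ^ (p ^ (k + 1))) = 1 := by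
    rw [map_pow, hg, fB_pow]
  have h3 : ∀ q : ℤ, μ ((g ^ (p ^ (k + 1))) ^ q) = 1 := by
    intro q
    have h4 : (g ^ (p ^ (k + 1))) ^ q ∈ μ.ker := Subgroup.zpow_mem _ (MonoidHom.mem_ker.2 h2) q
    exact h4
  refine ⟨n, ?_⟩
  rw [h1, map_mul, h3, mul_one, hn, zpow_natCast, map_pow, hg]

theorem exists_finset (k : ℕ) (μ : Λ →* BR p Γ k) (hμ : ∀ g, ∃ y, μ g = fB p Γ k y)
    (L : List Λ) : ∃ T : Finset (BR p Γ k), T.card ≤ (k + 1) ^ L.length ∧
      ∀ z ∈ Prods L, μ z ∈ Submodule.span (ZMod p) (T : Set (BR p Γ k)) := by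
  classical
  induction L with
  | nil =>
    refine ⟨{1}, by simp, ?_⟩
    rintro z hz
    have hz1 : z = 1 := hz
    rw [hz1, map_one]
    exact Submodule.subset_span (by simp)
  | cons g L ih =>
    obtain ⟨T, hT, hTs⟩ := ih
    obtain ⟨y, hy⟩ := hμ g
    refine ⟨PT k (fB p Γ k y) * T, ?_, ?_⟩
    · refine (Finset.card_mul_le).trans ?_
      rw [List.length_cons, pow_succ, mul_comm]
      refine Nat.mul_le_mul hT ?_
      refine Finset.card_image_le.trans ?_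
      rw [Finset.card_range]
    · rintro _ ⟨e, z, hz, rfl⟩
      rw [map_mul, Finset.coe_mul, ← Submodule.span_mul_span]
      refine Submodule.mul_mem_mul ?_ (hTs z hz)
      obtain ⟨n, hn⟩ := zpow_eq k μ hy e
      rw [hn]
      exact pow_mem_span k y n

theorem span_mu (k : ℕ) (μ : Λ →* BR p Γ k) (hμ : ∀ y, ∃ g, μ g = fB p Γ k y) :
    Submodule.span (ZMod p) (range μ) = ⊤ := by
  rw [eq_top_iff]
  intro z _
  obtain ⟨a, rfl⟩ := mkB_surj k z
  induction a using MonoidAlgebra.induction_on with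
  | of g =>
    obtain ⟨l, hl⟩ := hμ g
    exact Submodule.subset_span ⟨l, hl⟩
  | add a c ha hc =>
    rw [map_add]
    exact Submodule.add_mem _ (ha trivial) (hc trivial)
  | smul c a ha =>
    rw [map_smul]
    exact Submodule.smul_mem _ _ (ha trivial)

/-- **Bounded generation bounds the dimensions.** -/
theorem b_le_of_bdd {d : ℕ} (x : Fin d → Γ) (hx : Subgroup.closure (range x) = ⊤)
    (hΛ : HasPQuotientsOf p Λ Γ) (hbg : BoundedlyGenerated Λ) :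
    ∃ r : ℕ, ∀ k, b p Γ (k + 1) ≤ (k + 1) ^ r := by
  obtain ⟨r, g, hg⟩ := hbg
  refine ⟨r, fun k => ?_⟩
  obtain ⟨μ, hμ1, hμ2⟩ := exists_mu x hx hΛ k
  obtain ⟨T, hT, hTs⟩ := exists_finset k μ hμ1 (List.ofFn g)
  rw [List.length_ofFn] at hT
  have h1 : (⊤ : Submodule (ZMod p) (BR p Γ k)) ≤ Submodule.span (ZMod p) (T : Set (BR p Γ k)) := by
    rw [← span_mu k μ hμ2, Submodule.span_le]
    rintro _ ⟨z, rfl⟩
    obtain ⟨e, rfl⟩ := hg z
    exact hTs _ (mem_Prods r g e)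
  rw [← finrank_BR, ← finrank_top, ← top_le_iff.1 h1]
  exact (finrank_span_finset_le_card T).trans hT

theorem poly_lt {ρ : ℝ} (hρ : 1 < ρ) (r : ℕ) : ∃ k : ℕ, ((k + 1 : ℕ) : ℝ) ^ r < ρ ^ k := by
  have h1 := tendsto_pow_const_div_const_pow_of_one_lt r hρ
  have h2 : (0 : ℝ) < ρ⁻¹ := inv_pos.2 (by linarith)
  have h3 := (h1.eventually (gt_mem_nhds h2)).and (Filter.eventually_ge_atTop 1)
  obtain ⟨n, hn, hn1⟩ := h3.exists
  obtain ⟨k, rfl⟩ : ∃ k, n = k + 1 := ⟨n - 1, by omega⟩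
  refine ⟨k, ?_⟩
  have h4 : (0 : ℝ) < ρ ^ (k + 1) := pow_pos (by linarith) _
  rw [div_lt_iff₀ h4, pow_succ, ← mul_assoc, mul_comm ρ⁻¹, mul_assoc,
    inv_mul_cancel₀ (by linarith), mul_one] at hn
  exact hn

/-- **No bounded generation.** -/
theorem not_bdd {d h s : ℕ} (x : Fin d → Γ) (hx : Subgroup.closure (range x) = ⊤)
    (hineq : ∀ n, h * b p Γ (n + 1) + 1 ≤ b p Γ (n + 2) + s * b p Γ n) {ρ : ℝ} (hρ : 1 < ρ)
    (hρs : ρ ^ 2 + s ≤ h * ρ) (hΛ : HasPQuotientsOf p Λ Γ) : ¬ BoundedlyGenerated Λ := by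
  intro hbg
  obtain ⟨r, hr⟩ := b_le_of_bdd x hx hΛ hbg
  obtain ⟨k, hk⟩ := poly_lt hρ r
  have hb0 : b p Γ 0 = 0 := by
    have h1 : Subsingleton (Q p Γ 0) := by
      rw [Submodule.Quotient.subsingleton_iff, eq_top_iff]
      intro a _
      rw [mem_IK, Submodule.pow_zero, Ideal.one_eq_top]
      trivial
    exact Module.finrank_zero_of_subsingleton
  have h1 := b_lower (s := s) (by linarith) hρs (one_le_b x hx 0) hb0 hineq (k + 1)
  have h2 : ρ ^ k ≤ ∑ i ∈ Finset.range (k + 1), ρ ^ i :=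
    Finset.single_le_sum (f := fun i => ρ ^ i) (fun i _ => pow_nonneg (by linarith) i)
      (Finset.mem_range.2 (Nat.lt_succ_self k))
  have h3 : (b p Γ (k + 1) : ℝ) ≤ ((k + 1 : ℕ) : ℝ) ^ r := by exact_mod_cast hr k
  linarith

end Pool.Agent.X277.PD
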