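import Pool.Agent.X277.PD.Rel

/-!
# The second cohomology bounds the relation module
-/

set_option autoImplicit false
set_option linter.unusedSectionVars false

open Set Function

noncomputable section

namespace Pool.Agent.X277.PD

open Pool.Agent.X277.GS Pool.Agent.X277.PF groupCohomology

variable {p : ℕ} [hp : Fact p.Prime] {Γ : Type} [Group Γ] {d : ℕ} (x : Fin d → Γ)

/-- the trivial representation on `ℤ/p` -/
abbrev AA (p : ℕ) (Γ : Type) [Group Γ] : Rep (ZMod p) Γ := Rep.trivial (ZMod p) Γ (ZMod p)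

theorem Psi_add (a c : Fin d → KG p Γ) : Psi x (a + c) = Psi x a + Psi x c :=
  (PsiL p x).map_add a c

theorem Psi_sub (a c : Fin d → KG p Γ) : Psi x (a - c) = Psi x a - Psi x c :=
  (PsiL p x).map_sub a c

theorem Psi_smul (r : KG p Γ) (a : Fin d → KG p Γ) : Psi x (r • a) = r * Psi x a :=
  (PsiL p x).map_smul r a

theorem Psi_smul' (r : ZMod p) (a : Fin d → KG p Γ) : Psi x (r • a) = r • Psi x a :=
  (PsiL p x).map_smul_of_tower r a

theorem Psi_single (i : Fin d) (a : KG p Γ) : Psi x (Pi.single i a) = a * (ge p (x i) - 1) := by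
  rw [Psi, Finset.sum_eq_single i]
  · rw [Pi.single_eq_same]
  · intro j _ hj
    rw [Pi.single_eq_of_ne hj, zero_mul]
  · intro h
    exact absurd (Finset.mem_univ i) h

variable (s : Γ → Fin d → KG p Γ) (hs : ∀ g, Psi x (s g) = ge p g - 1)

/-- the factor set -/
def mm (g h : Γ) : MM p x :=
  ⟨s g + ge p g • s h - s (g * h), by
    rw [mem_MM, Psi_sub, Psi_add, Psi_smul, hs, hs, hs, mul_sub, mul_one, ← ge_mul]
    abel⟩

theorem mm_rel (g h j : Γ) : ge p g • mm x s hs h j + mm x s hs g (h * j) =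
    mm x s hs (g * h) j + mm x s hs g h := by
  apply Subtype.ext
  show ge p g • (s h + ge p h • s j - s (h * j)) + (s g + ge p g • s (h * j) - s (g * (h * j))) =
    (s (g * h) + ge p (g * h) • s j - s (g * h * j)) + (s g + ge p g • s h - s (g * h))
  rw [smul_sub, smul_add, ge_mul, mul_smul, mul_assoc]
  abel

theorem mk_smul (g : Γ) (m : MM p x) : (JJ p x).mkQ (ge p g • m) = (JJ p x).mkQ m := by
  rw [← sub_eq_zero, ← map_sub, Submodule.mkQ_apply, Submodule.Quotient.mk_eq_zero]
  exact Submodule.subset_span ⟨g, m, rfl⟩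

/-- the cocycle attached to a functional -/
def Th' : Module.Dual (ZMod p) (VV p x) →ₗ[ZMod p] cocycles₂ (AA p Γ) where
  toFun f := ⟨fun gh => f ((JJ p x).mkQ (mm x s hs gh.1 gh.2)), by
    rw [mem_cocycles₂_iff]
    intro g h j
    have h1 := congrArg (fun m => f ((JJ p x).mkQ m)) (mm_rel x s hs g h j)
    simp only [map_add] at h1
    rw [mk_smul] at h1
    exact h1.symm⟩
  map_add' f f' := rfl
  map_smul' c f := rfl

/-- the class attached to a functional -/
def Th : Module.Dual (ZMod p) (VV p x) →ₗ[ZMod p] H2 (AA p Γ) :=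
  (H2π (AA p Γ)).hom ∘ₗ Th' x s hs

/-- the linear extension of `s` -/
def Sl (s : Γ → Fin d → KG p Γ) : KG p Γ →ₗ[ZMod p] (Fin d → KG p Γ) :=
  (Finsupp.linearCombination (ZMod p) s) ∘ₗ (MonoidAlgebra.coeffLinearEquiv (ZMod p)).toLinearMap

theorem Sl_ge (g : Γ) : Sl s (ge p g) = s g := by
  show Finsupp.linearCombination (ZMod p) s (Finsupp.single g 1) = _
  rw [Finsupp.linearCombination_single, one_smul]

/-- the linear extension of `u` -/
def Ul (u : Γ → ZMod p) : KG p Γ →ₗ[ZMod p] ZMod p :=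
  (Finsupp.linearCombination (ZMod p) u) ∘ₗ (MonoidAlgebra.coeffLinearEquiv (ZMod p)).toLinearMap

theorem Ul_ge (u : Γ → ZMod p) (g : Γ) : Ul u (ge p g) = u g := by
  show Finsupp.linearCombination (ZMod p) u (Finsupp.single g 1) = _
  rw [Finsupp.linearCombination_single, one_smul]

include hs in
theorem Psi_Sl (a : KG p Γ) : Psi x (Sl s a) = a - aug p Γ a • 1 := by
  induction a using MonoidAlgebra.induction_on with
  | of g =>
    show Psi x (Sl s (ge p g)) = ge p g - aug p Γ (ge p g) • 1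
    rw [Sl_ge, hs, aug_ge, one_smul]
  | add a b ha hb =>
    rw [map_add, Psi_add, ha, hb, map_add, add_smul]
    abel
  | smul c a ha =>
    rw [map_smul, Psi_smul', ha, map_smul, smul_sub, smul_eq_mul, mul_smul]

include hs in
theorem nn_mem (v : Fin d → KG p Γ) : v - Sl s (Psi x v) ∈ MM p x := by
  rw [mem_MM, Psi_sub, Psi_Sl x s hs]
  have h1 : aug p Γ (Psi x v) = 0 := by
    have h2 := Psi_mem_pow (p := p) x 0 (c := v) fun i => by
      rw [Submodule.pow_zero, Ideal.one_eq_top]
      trivial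
    rw [zero_add, Submodule.pow_one] at h2
    exact mem_AI.1 h2
  rw [h1, zero_smul, sub_zero, sub_self]

/-- the projection to the relation module -/
def nn : (Fin d → KG p Γ) →ₗ[ZMod p] MM p x where
  toFun v := ⟨v - Sl s (Psi x v), nn_mem x s hs v⟩
  map_add' v v' := by
    apply Subtype.ext
    show v + v' - Sl s (Psi x (v + v')) = (v - Sl s (Psi x v)) + (v' - Sl s (Psi x v'))
    rw [Psi_add, map_add]
    abel
  map_smul' c v := by
    apply Subtype.ext
    show c • v - Sl s (Psi x (c • v)) = c • (v - Sl s (Psi x v))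
    rw [Psi_smul', map_smul, smul_sub]

theorem ni_mem (i : Fin d) : (Pi.single i 1 - s (x i) : Fin d → KG p Γ) ∈ MM p x ↔
    Psi x (s (x i)) = ge p (x i) - 1 := by
  rw [mem_MM, Psi_sub, Psi_single, one_mul, sub_eq_zero, eq_comm]

theorem nn_single (i : Fin d) (g : Γ) : nn x s hs (Pi.single i (ge p g)) =
    ge p g • (⟨Pi.single i 1 - s (x i), (ni_mem x s i).2 (hs (x i))⟩ : MM p x) +
      mm x s hs g (x i) := by
  apply Subtype.ext
  show Pi.single i (ge p g) - Sl s (Psi x (Pi.single i (ge p g))) =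
    ge p g • (Pi.single i 1 - s (x i)) + (s g + ge p g • s (x i) - s (g * x i))
  rw [Psi_single, mul_sub, mul_one, ← ge_mul, map_sub, Sl_ge, Sl_ge, smul_sub]
  have h1 : ge p g • (Pi.single i 1 : Fin d → KG p Γ) = Pi.single i (ge p g) := by
    rw [← Pi.single_smul, smul_eq_mul, mul_one]
  rw [h1]
  abel

theorem ker_Th (f : Module.Dual (ZMod p) (VV p x)) (hf : Th x s hs f = 0) :
    f ∈ LinearMap.range (EE p x).dualMap := by
  have h1 : H2π (AA p Γ) (Th' x s hs f) = 0 := hf
  rw [H2π_eq_zero_iff] at h1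
  obtain ⟨u, hu⟩ := h1
  have hu' : ∀ g h : Γ, f ((JJ p x).mkQ (mm x s hs g h)) = (u h : ZMod p) - u (g * h) + u g := by
    intro g h
    exact (congrFun hu (g, h)).symm
  let u' : Γ → ZMod p := u
  let α : Fin d → ZMod p := fun i =>
    f ((JJ p x).mkQ ⟨Pi.single i 1 - s (x i), (ni_mem x s i).2 (hs (x i))⟩) + u' (x i)
  let FF : (Fin d → KG p Γ) →ₗ[ZMod p] ZMod p :=
    f ∘ₗ (JJ p x).mkQ ∘ₗ nn x s hs + Ul u' ∘ₗ (PsiL p x).restrictScalars (ZMod p)
  have hFF : ∀ v, FF v = f ((JJ p x).mkQ (nn x s hs v)) + Ul u' (Psi x v) := fun v => rfl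
  have h2 : ∀ (i : Fin d) (a : KG p Γ), FF (Pi.single i a) = α i * aug p Γ a := by
    intro i a
    induction a using MonoidAlgebra.induction_on with
    | of g =>
      show FF (Pi.single i (ge p g)) = α i * aug p Γ (ge p g)
      rw [hFF, nn_single, map_add, map_add, mk_smul, hu', Psi_single, mul_sub, mul_one, ← ge_mul,
        map_sub, Ul_ge, Ul_ge, aug_ge, mul_one]
      show _ + ((u' (x i) - u' (g * x i) + u' g)) + (u' (g * x i) - u' g) = _ + u' (x i)
      ring
    | add a b ha hb => rw [Pi.single_add, map_add, ha, hb, map_add, mul_add]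
    | smul c a ha => rw [Pi.single_smul, map_smul, ha, map_smul, smul_eq_mul, smul_eq_mul,
        mul_left_comm]
  have h3 : ∀ v, FF v = ∑ i, α i * aug p Γ (v i) := by
    intro v
    conv_lhs => rw [← Finset.univ_sum_single v]
    rw [map_sum]
    exact Finset.sum_congr rfl fun i _ => h2 i (v i)
  refine ⟨∑ i, α i • LinearMap.proj i, ?_⟩
  apply LinearMap.ext
  intro v
  obtain ⟨m, rfl⟩ := (JJ p x).mkQ_surjective v
  have h4 : FF m.1 = f ((JJ p x).mkQ m) := by
    rw [hFF, (mem_MM x).1 m.2, map_zero, add_zero]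
    congr 2
    apply Subtype.ext
    show m.1 - Sl s (Psi x m.1) = m.1
    rw [(mem_MM x).1 m.2, map_zero, sub_zero]
  rw [← h4, h3, LinearMap.dualMap_apply, EE_mk, LinearMap.sum_apply]
  rfl

/-- **The bound.** -/
theorem finrank_VV (hx : Subgroup.closure (range x) = ⊤)
    [hfin : Module.Finite (ZMod p) (H2 (AA p Γ))] :
    Module.Finite (ZMod p) (VV p x) ∧ Module.finrank (ZMod p) (VV p x) ≤
      Module.finrank (ZMod p) (LinearMap.range (EE p x).dualMap) +
        Module.finrank (ZMod p) (H2 (AA p Γ)) := by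
  choose s hs using fun g => exists_Psi x hx (ge_sub_mem (p := p) g)
  have hker : LinearMap.ker (Th x s hs) ≤ LinearMap.range (EE p x).dualMap :=
    fun f hf => ker_Th x s hs f (LinearMap.mem_ker.1 hf)
  have h1 : Module.Finite (ZMod p) (LinearMap.ker (Th x s hs)) :=
    Submodule.finiteDimensional_of_le hker
  have h2 : Module.Finite (ZMod p) (Module.Dual (ZMod p) (VV p x) ⧸ LinearMap.ker (Th x s hs)) :=
    Module.Finite.equiv (LinearMap.quotKerEquivRange (Th x s hs)).symm
  have h3 : Module.Finite (ZMod p) (Module.Dual (ZMod p) (VV p x)) :=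
    Module.Finite.of_submodule_quotient (LinearMap.ker (Th x s hs))
  have h4 : Module.Finite (ZMod p) (VV p x) := (Module.finite_dual_iff (ZMod p)).1 h3
  refine ⟨h4, ?_⟩
  rw [← Subspace.dual_finrank_eq, ← LinearMap.finrank_range_add_finrank_ker (Th x s hs), add_comm]
  exact add_le_add (Submodule.finrank_mono hker) (Submodule.finrank_le _)

/-- **The Golod-Shafarevich inequality with the second cohomology.** -/
theorem ineq_H2 (hx : Subgroup.closure (range x) = ⊤)
    [hfin : Module.Finite (ZMod p) (H2 (AA p Γ))] {h : ℕ}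
    (hh : Nat.card (Γ →* Multiplicative (ZMod p)) = p ^ h) (n : ℕ) :
    h * b p Γ (n + 1) + 1 ≤
      b p Γ (n + 2) + Module.finrank (ZMod p) (H2 (AA p Γ)) * b p Γ n := by
  obtain ⟨h1, h2⟩ := finrank_VV (p := p) x hx
  exact ineq_of_VV x hx hh h2 n

end Pool.Agent.X277.PD
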