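import Pool.Agent.X277.GS.Index

/-!
# Growth from a Golod-Shafarevich inequality
-/

set_option autoImplicit false
set_option linter.unusedSectionVars false

open Set Function

noncomputable section

namespace Pool.Agent.X277.PD

open Pool.Agent.X277.GS Pool.Agent.X277.PF

variable {p : ℕ} [hp : Fact p.Prime] {Γ : Type} [Group Γ]

/-- **Growth from the inequality.** -/
theorem growth_core {Λ : Type} [Group Λ] {d h s : ℕ} (x : Fin d → Γ)
    (hx : Subgroup.closure (range x) = ⊤)
    (hineq : ∀ n, h * b p Γ (n + 1) + 1 ≤ b p Γ (n + 2) + s * b p Γ n) {ρ : ℝ} (hρ : 0 < ρ)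
    (hρs : ρ ^ 2 + s ≤ h * ρ) (hΛ : HasPQuotientsOf p Λ Γ) {S : Set Λ} (hSf : S.Finite)
    (hS : Subgroup.closure S = ⊤) (k : ℕ) :
    ∑ i ∈ Finset.range (k + 1), ρ ^ i ≤ (posBall S k).ncard := by
  have hb0 : b p Γ 0 = 0 := by
    have h1 : Subsingleton (Q p Γ 0) := by
      rw [Submodule.Quotient.subsingleton_iff, eq_top_iff]
      intro a _
      rw [mem_IK, Submodule.pow_zero, Ideal.one_eq_top]
      trivial
    exact Module.finrank_zero_of_subsingleton
  refine (b_lower (s := s) hρ hρs (one_le_b x hx 0) hb0 hineq (k + 1)).trans ?_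
  rw [Nat.cast_le]
  -- the finite `p`-group
  have hBfin : Finite (BR p Γ k) := finite_BR x hx k
  set G := (fB p Γ k).toHomUnits.range with hG
  have hGp : IsPGroup p G := by
    rintro ⟨_, g, rfl⟩
    refine ⟨k + 1, Subtype.ext (Units.ext ?_)⟩
    exact fB_pow k g
  obtain ⟨π, hπ⟩ := hΛ G hGp ⟨(fB p Γ k).toHomUnits.rangeRestrict,
    (fB p Γ k).toHomUnits.rangeRestrict_surjective⟩
  let μ : Λ →* BR p Γ k := (Units.coeHom _).comp (G.subtype.comp π)
  let J : Submodule (ZMod p) (BR p Γ k) :=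
    Submodule.span (ZMod p) (range fun g : Γ => fB p Γ k g - 1)
  have hμ : ∀ g, μ g - 1 ∈ J := by
    intro g
    obtain ⟨y, hy⟩ := (π g).2
    have h1 : μ g = fB p Γ k y := by
      show (((π g : G) : (BR p Γ k)ˣ) : BR p Γ k) = _
      rw [← hy]
      rfl
    rw [h1]
    exact Submodule.subset_span ⟨y, rfl⟩
  have hJ : J ≤ Submodule.span (ZMod p) (range fun g => μ g - 1) := by
    apply Submodule.span_mono
    rintro _ ⟨y, rfl⟩
    obtain ⟨g, hg⟩ := hπ ⟨(fB p Γ k).toHomUnits y, y, rfl⟩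
    refine ⟨g, ?_⟩
    show (((π g : G) : (BR p Γ k)ˣ) : BR p Γ k) - 1 = _
    rw [hg]
    rfl
  have h1 : 1 ⊔ J = ⊤ := by
    rw [eq_top_iff]
    intro y _
    obtain ⟨a, rfl⟩ := mkB_surj k y
    induction a using MonoidAlgebra.induction_on with
    | of g =>
      have : mkB p Γ k (MonoidAlgebra.of (ZMod p) Γ g) = 1 + (fB p Γ k g - 1) := by
        rw [fB_apply]
        abel
      rw [this]
      exact Submodule.add_mem _ (Submodule.mem_sup_left (Submodule.one_le.1 le_rfl))
        (Submodule.mem_sup_right (Submodule.subset_span ⟨g, rfl⟩))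
    | add a c ha hc =>
      rw [map_add]
      exact Submodule.add_mem _ (ha trivial) (hc trivial)
    | smul c a ha =>
      rw [map_smul]
      exact Submodule.smul_mem _ _ (ha trivial)
  have hJpow : ∀ n, J ^ n ≤ Submodule.map (mkB p Γ k).toLinearMap (IK p Γ n) := by
    intro n
    induction n with
    | zero =>
      intro y _
      obtain ⟨a, rfl⟩ := mkB_surj k y
      refine ⟨a, ?_, rfl⟩
      show a ∈ AI p Γ ^ 0
      rw [Submodule.pow_zero, Ideal.one_eq_top]
      trivial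
    | succ n ih =>
      rw [pow_succ, Submodule.mul_le]
      intro y hy z hz
      obtain ⟨a, ha, rfl⟩ := ih hy
      have h2 : J ≤ Submodule.map (mkB p Γ k).toLinearMap (IK p Γ 1) := by
        rw [Submodule.span_le]
        rintro _ ⟨g, rfl⟩
        refine ⟨ge p g - 1, ?_, ?_⟩
        · show ge p g - 1 ∈ AI p Γ ^ 1
          rw [Submodule.pow_one]
          exact ge_sub_mem g
        · show mkB p Γ k (ge p g - 1) = fB p Γ k g - 1
          rw [map_sub, map_one]
          rfl
      obtain ⟨c, hc, rfl⟩ := h2 hz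
      have hc' : c ∈ AI p Γ := by
        have h3 : c ∈ AI p Γ ^ 1 := hc
        rwa [Submodule.pow_one] at h3
      exact ⟨a * c, IK_mul_succ ha hc', map_mul (mkB p Γ k) a c⟩
  have hJ0 : J ^ (k + 1) = ⊥ := by
    rw [eq_bot_iff]
    intro y hy
    obtain ⟨a, ha, rfl⟩ := hJpow (k + 1) hy
    exact mkB_eq_zero ha
  have htop := span_words μ S hS J hμ hJ h1 k
  rw [hJ0, sup_bot_eq] at htop
  have hBall := posBall_finite hSf k
  have hfin : (μ '' posBall S k).Finite := hBall.image _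
  have hrank : Module.finrank (ZMod p) (BR p Γ k) ≤ (μ '' posBall S k).ncard := by
    have := Fintype.ofFinite (μ '' posBall S k)
    rw [← finrank_top, ← htop]
    refine (finrank_span_le_card _).trans ?_
    rw [Set.ncard_eq_toFinset_card']
  rw [finrank_BR] at hrank
  exact hrank.trans (Set.ncard_image_le hBall)


/-- **The virtual version.** -/
theorem growth_core_virtual {Λ Γ' : Type} [Group Λ] [Group Γ']
    (hΛ : HasQuotientsOf Λ Γ') (Δ : Subgroup Γ') [hΔ : Δ.FiniteIndex] (τ : Δ →* Γ)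
    (hτ : Surjective τ) {d h s : ℕ} (x : Fin d → Γ)
    (hx : Subgroup.closure (range x) = ⊤)
    (hineq : ∀ n, h * b p Γ (n + 1) + 1 ≤ b p Γ (n + 2) + s * b p Γ n) {ρ : ℝ} (hρ : 0 < ρ)
    (hρs : ρ ^ 2 + s ≤ h * ρ) {S : Set Λ} (hSf : S.Finite)
    (hS : Subgroup.closure S = ⊤) (k : ℕ) :
    ∑ i ∈ Finset.range (k + 1), ρ ^ i ≤ (posBall S ((2 * Δ.index - 1) * k)).ncard := by
  have hfg : Group.FG Λ := ⟨⟨hSf.toFinset, by rw [Finite.coe_toFinset]; exact hS⟩⟩
  obtain ⟨H, hH, hHQ⟩ := exists_subgroup_quotients hfg hΛ Δ τ hτ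
  have hHf : H.FiniteIndex := ⟨by rw [hH]; exact hΔ.index_ne_zero⟩
  have h1 := closure_pos hS H
  have h2 : {x : H | (x : Λ) ∈ posBall S (2 * H.index - 1)}.Finite :=
    Set.Finite.preimage (Subtype.val_injective.injOn) (posBall_finite hSf _)
  have h3 := growth_core x hx hineq hρ hρs (hHQ.p p) h2 h1 k
  refine h3.trans ?_
  rw [Nat.cast_le, ← hH]
  exact ncard_posBall_le hSf H _ k

end Pool.Agent.X277.PD
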