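import Pool.Agent.X277.PD.Bdd

/-!
# The first homology modulo `p`
-/

set_option autoImplicit false
set_option linter.unusedSectionVars false

open Set Function

open scoped TensorProduct

noncomputable section

namespace Pool.Agent.X277.PD

open Pool.Agent.X277.GS Pool.Agent.X277.PF

variable {p : ℕ} [hp : Fact p.Prime] {Γ : Type} [Group Γ]

/-- the bilinear map attached to a homomorphism -/
def BB (χ : Γ →* Multiplicative (ZMod p)) :
    Additive (Abelianization Γ) →ₗ[ℤ] ZMod p →ₗ[ℤ] ZMod p :=
  LinearMap.mk₂ ℤ (fun γ a => Multiplicative.toAdd (Abelianization.lift χ (Additive.toMul γ)) * a)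
    (fun γ γ' a => by rw [toMul_add, map_mul, toAdd_mul, add_mul])
    (fun n γ a => by
      rw [toMul_zsmul, map_zpow, toAdd_zpow, smul_mul_assoc])
    (fun γ a a' => mul_add _ _ _)
    (fun n γ a => by rw [mul_smul_comm])

theorem BB_apply (χ : Γ →* Multiplicative (ZMod p)) (γ : Γ) (a : ZMod p) :
    BB χ (Additive.ofMul (Abelianization.of γ)) a = Multiplicative.toAdd (χ γ) * a := by
  show Multiplicative.toAdd (Abelianization.lift χ (Abelianization.of γ)) * a = _
  rw [Abelianization.lift_apply_of]

/-- the tensor product -/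
abbrev TT (p : ℕ) (Γ : Type) [Group Γ] : Type := Additive (Abelianization Γ) ⊗[ℤ] ZMod p

theorem card_TT : Nat.card (TT p Γ →+ ZMod p) = Nat.card (Γ →* Multiplicative (ZMod p)) := by
  let α : (TT p Γ →+ ZMod p) → (Γ →* Multiplicative (ZMod p)) := fun f =>
    { toFun := fun γ => Multiplicative.ofAdd
        (f (Additive.ofMul (Abelianization.of γ) ⊗ₜ[ℤ] (1 : ZMod p)))
      map_one' := by
        rw [map_one, ofMul_one, TensorProduct.zero_tmul, map_zero, ofAdd_zero]
      map_mul' := fun γ γ' => by
        rw [map_mul, ofMul_mul, TensorProduct.add_tmul, map_add, ofAdd_add] }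
  apply Nat.card_congr (Equiv.ofBijective α ⟨?_, ?_⟩)
  · intro f f' h
    have h1 : ∀ γ : Γ, f (Additive.ofMul (Abelianization.of γ) ⊗ₜ[ℤ] (1 : ZMod p)) =
        f' (Additive.ofMul (Abelianization.of γ) ⊗ₜ[ℤ] (1 : ZMod p)) := fun γ =>
      Multiplicative.ofAdd.injective (DFunLike.congr_fun h γ)
    ext t
    induction t using TensorProduct.induction_on with
    | zero => rw [map_zero, map_zero]
    | tmul γ a =>
      obtain ⟨γ', hγ'⟩ := QuotientGroup.mk_surjective (Additive.toMul γ)
      have h2 : γ = Additive.ofMul (Abelianization.of γ') := hγ'.symm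
      have h3 : a = (ZMod.val a : ℤ) • (1 : ZMod p) := by
        rw [zsmul_eq_mul, mul_one]
        simp
      rw [h2, h3, TensorProduct.tmul_smul, map_zsmul, map_zsmul, h1]
    | add t t' ht ht' => rw [map_add, map_add, ht, ht']
  · intro χ
    refine ⟨(TensorProduct.lift (BB χ)).toAddMonoidHom, ?_⟩
    ext γ
    show Multiplicative.ofAdd (TensorProduct.lift (BB χ)
      (Additive.ofMul (Abelianization.of γ) ⊗ₜ[ℤ] (1 : ZMod p))) = χ γ
    rw [TensorProduct.lift.tmul, BB_apply, mul_one]
    rfl

/-- the isomorphism with the tensor product -/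
def eH : groupHomology.H1 (AA p Γ) ≃+ TT p Γ := groupHomology.H1AddEquivOfIsTrivial (AA p Γ)

theorem card_dual_H1 : Nat.card (Module.Dual (ZMod p) (groupHomology.H1 (AA p Γ))) =
    Nat.card (Γ →* Multiplicative (ZMod p)) := by
  rw [← card_TT]
  apply Nat.card_congr
  exact
    { toFun := fun f => f.toAddMonoidHom.comp (eH (p := p) (Γ := Γ)).symm.toAddMonoidHom
      invFun := fun f => (f.comp (eH (p := p) (Γ := Γ)).toAddMonoidHom).toZModLinearMap p
      left_inv := fun f => by
        apply LinearMap.ext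
        intro t
        show f ((eH (p := p) (Γ := Γ)).symm ((eH (p := p) (Γ := Γ)) t)) = f t
        rw [AddEquiv.symm_apply_apply]
      right_inv := fun f => by
        ext t
        show f ((eH (p := p) (Γ := Γ)) ((eH (p := p) (Γ := Γ)).symm t)) = f t
        rw [AddEquiv.apply_symm_apply] }

theorem finrank_H1 {h : ℕ} (hh : Nat.card (Γ →* Multiplicative (ZMod p)) = p ^ h) :
    Module.Finite (ZMod p) (groupHomology.H1 (AA p Γ)) ∧
      Module.finrank (ZMod p) (groupHomology.H1 (AA p Γ)) = h := by
  have h1 := card_dual_H1 (p := p) (Γ := Γ)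
  rw [hh] at h1
  have h2 : Finite (Module.Dual (ZMod p) (groupHomology.H1 (AA p Γ))) := by
    apply Nat.finite_of_card_ne_zero
    rw [h1]
    exact (pow_pos (Fact.out : p.Prime).pos _).ne'
  have h3 : Module.Finite (ZMod p) (Module.Dual (ZMod p) (groupHomology.H1 (AA p Γ))) :=
    Module.Finite.of_finite
  have h4 : Module.Finite (ZMod p) (groupHomology.H1 (AA p Γ)) :=
    (Module.finite_dual_iff (ZMod p)).1 h3
  refine ⟨h4, ?_⟩
  have h5 := Module.natCard_eq_pow_finrank (K := ZMod p)
    (V := Module.Dual (ZMod p) (groupHomology.H1 (AA p Γ)))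
  rw [h1, Nat.card_zmod, Subspace.dual_finrank_eq] at h5
  exact (Nat.pow_right_injective (Fact.out : p.Prime).two_le h5).symm

end Pool.Agent.X277.PD
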