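import Pool.Agent.X277.PD.Core

/-!
# The Golod-Shafarevich inequality from generators modulo high powers
-/

set_option autoImplicit false
set_option linter.unusedSectionVars false

open Set Function

noncomputable section

namespace Pool.Agent.X277.PD

open Pool.Agent.X277.GS Pool.Agent.X277.PF

variable {p : ℕ} [hp : Fact p.Prime] {Γ : Type} [Group Γ] {d : ℕ}

/-- **The Golod-Shafarevich inequality.** -/
theorem gs_ineq2 (x : Fin d → Γ) (hx : Subgroup.closure (range x) = ⊤)
    {t s : ℕ} (w : Fin t → Fin d → KG p Γ) (ξ : Fin s → Fin d → KG p Γ)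
    (hξ : ∀ j l, ξ j l ∈ AI p Γ)
    (hRM : ∀ a, Psi x a = 0 → ∀ n, ∃ (u : Fin t → KG p Γ) (v : Fin s → KG p Γ)
      (c : Fin d → KG p Γ), (∀ l, c l ∈ AI p Γ ^ n) ∧
      a = ∑ i, u i • w i + ∑ j, v j • ξ j + c) (n : ℕ) :
    d * b p Γ (n + 1) + 1 ≤ b p Γ (n + 2) + (t * b p Γ (n + 1) + s * b p Γ n) := by
  have hfin := fun n => finite_Q (p := p) x hx n
  have := hfin n
  have := hfin (n + 1)
  have := hfin (n + 2)
  have := hfin (n + 1 + 1)
  -- the kernel
  have h1 : LinearMap.ker (Phi p x (n + 1)) ≤ LinearMap.range (The (n := n) w ξ hξ) := by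
    intro q hq
    obtain ⟨a, rfl⟩ := exists_rep (n + 1) q
    rw [LinearMap.mem_ker, Phi_mk] at hq
    have h2 : Psi x a ∈ AI p Γ ^ (n + 1 + 1) := (Submodule.Quotient.mk_eq_zero _).1 hq
    obtain ⟨c, hc, hca⟩ := exists_Psi_pow x hx (n + 1) h2
    have h3 : Psi x (a - c) = 0 := by
      rw [← sub_eq_zero, ← neg_sub, neg_eq_zero] at hca
      rw [← hca, Psi, Psi, Psi, ← Finset.sum_sub_distrib]
      exact Finset.sum_congr rfl fun i _ => sub_mul _ _ _
    obtain ⟨u, v, c', hc', huv⟩ := hRM _ h3 (n + 1)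
    refine ⟨(fun i => (IK p Γ (n + 1)).mkQ (u i), fun j => (IK p Γ n).mkQ (v j)), ?_⟩
    have huv' : ∑ i, u i • w i + ∑ j, v j • ξ j = a - c - c' := by
      rw [huv]
      abel
    rw [The_mk, huv']
    funext l
    rw [Pi.sub_apply, Pi.sub_apply, sub_sub, map_sub, sub_eq_self]
    exact (Submodule.Quotient.mk_eq_zero _).2 (Ideal.add_mem _ (hc l) (hc' l))
  -- the range is proper
  have h2 : LinearMap.range (Phi p x (n + 1)) < ⊤ := by
    rw [lt_top_iff_ne_top]
    intro h
    have h3 : (IK p Γ (n + 1 + 1)).mkQ 1 ∈ LinearMap.range (Phi p x (n + 1)) := by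
      rw [h]
      trivial
    obtain ⟨q, hq⟩ := h3
    obtain ⟨a, rfl⟩ := exists_rep (n + 1) q
    rw [Phi_mk] at hq
    have h4 := (Submodule.Quotient.eq _).1 hq
    have h5 : Psi x a - 1 ∈ AI p Γ := AI_pow_le_AI (n + 1) h4
    have h6 : Psi x a ∈ AI p Γ := by
      have h7 := Psi_mem_pow (p := p) x 0 (c := a) fun i => by
        rw [Submodule.pow_zero, Ideal.one_eq_top]
        trivial
      rwa [zero_add, Submodule.pow_one] at h7
    apply one_notMem (p := p) (Γ := Γ)
    have h8 := Ideal.sub_mem _ h6 h5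
    rwa [sub_sub_cancel] at h8
  have h3 := Submodule.finrank_lt h2.ne
  have h4 := LinearMap.finrank_range_add_finrank_ker (Phi p x (n + 1))
  have h5 : Module.finrank (ZMod p) (LinearMap.ker (Phi p x (n + 1))) ≤
      t * b p Γ (n + 1) + s * b p Γ n := by
    refine (Submodule.finrank_mono h1).trans ((LinearMap.finrank_range_le _).trans ?_)
    rw [Module.finrank_prod, Module.finrank_pi_fintype, Module.finrank_pi_fintype]
    simp [b]
  have h6 : Module.finrank (ZMod p) (Fin d → Q p Γ (n + 1)) = d * b p Γ (n + 1) := by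
    rw [Module.finrank_pi_fintype]
    simp [b]
  rw [h6] at h4
  have h7 : Module.finrank (ZMod p) (Q p Γ (n + 1 + 1)) = b p Γ (n + 2) := rfl
  omega


end Pool.Agent.X277.PD
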