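import Pool.Agent.X277.PD.Ineq

/-!
# The relation module modulo the augmentation ideal
-/

set_option autoImplicit false
set_option linter.unusedSectionVars false

open Set Function

noncomputable section

namespace Pool.Agent.X277.PD

open Pool.Agent.X277.GS Pool.Agent.X277.PF

variable {p : ℕ} [hp : Fact p.Prime] {Γ : Type} [Group Γ] {d : ℕ} (x : Fin d → Γ)

/-- `Ψ` as a linear map -/
def PsiL (p : ℕ) (x : Fin d → Γ) : (Fin d → KG p Γ) →ₗ[KG p Γ] KG p Γ where
  toFun := Psi x
  map_add' a c := by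
    rw [Psi, Psi, Psi, ← Finset.sum_add_distrib]
    exact Finset.sum_congr rfl fun i _ => add_mul _ _ _
  map_smul' r a := by
    rw [RingHom.id_apply, smul_eq_mul, Psi, Psi, Finset.mul_sum]
    exact Finset.sum_congr rfl fun i _ => mul_assoc _ _ _

/-- the relation module -/
def MM (p : ℕ) (x : Fin d → Γ) : Submodule (KG p Γ) (Fin d → KG p Γ) := LinearMap.ker (PsiL p x)

theorem mem_MM {a : Fin d → KG p Γ} : a ∈ MM p x ↔ Psi x a = 0 := LinearMap.mem_ker

/-- the elements `g m - m` -/
def JJ (p : ℕ) (x : Fin d → Γ) : Submodule (ZMod p) (MM p x) :=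
  Submodule.span (ZMod p) {z | ∃ (g : Γ) (m : MM p x), z = ge p g • m - m}

/-- the coinvariants of the relation module -/
abbrev VV (p : ℕ) (x : Fin d → Γ) : Type := MM p x ⧸ JJ p x

/-- the augmentations of the coordinates -/
def augM (p : ℕ) (x : Fin d → Γ) : MM p x →ₗ[ZMod p] (Fin d → ZMod p) :=
  LinearMap.pi fun i => (aug p Γ).toLinearMap ∘ₗ (LinearMap.proj i) ∘ₗ
    ((MM p x).subtype.restrictScalars (ZMod p))

theorem augM_apply (m : MM p x) (i : Fin d) : augM p x m i = aug p Γ (m.1 i) := rfl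

theorem JJ_le : JJ p x ≤ LinearMap.ker (augM p x) := by
  rw [JJ, Submodule.span_le]
  rintro _ ⟨g, m, rfl⟩
  rw [SetLike.mem_coe, LinearMap.mem_ker]
  funext i
  rw [augM_apply]
  show aug p Γ (ge p g * m.1 i - m.1 i) = 0
  rw [map_sub, map_mul, aug_ge, one_mul, sub_self]

/-- the map to `K ^ d` -/
def EE (p : ℕ) [Fact p.Prime] (x : Fin d → Γ) : VV p x →ₗ[ZMod p] (Fin d → ZMod p) :=
  (JJ p x).liftQ (augM p x) (JJ_le x)

theorem EE_mk (m : MM p x) : EE p x ((JJ p x).mkQ m) = augM p x m := rfl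

/-- the functional attached to a homomorphism -/
def XX (χ : Γ →* Multiplicative (ZMod p)) : KG p Γ →ₗ[ZMod p] ZMod p :=
  (Finsupp.linearCombination (ZMod p) fun g : Γ => Multiplicative.toAdd (χ g)) ∘ₗ
    (MonoidAlgebra.coeffLinearEquiv (ZMod p)).toLinearMap

theorem XX_ge (χ : Γ →* Multiplicative (ZMod p)) (g : Γ) :
    XX χ (ge p g) = Multiplicative.toAdd (χ g) := by
  show Finsupp.linearCombination (ZMod p) (fun g : Γ => Multiplicative.toAdd (χ g))
    (Finsupp.single g 1) = _
  rw [Finsupp.linearCombination_single, one_smul]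

theorem XX_mul (χ : Γ →* Multiplicative (ZMod p)) (y : Γ) (a : KG p Γ) :
    XX χ (a * (ge p y - 1)) = aug p Γ a * Multiplicative.toAdd (χ y) := by
  induction a using MonoidAlgebra.induction_on with
  | of g =>
    show XX χ (ge p g * (ge p y - 1)) = aug p Γ (ge p g) * _
    rw [mul_sub, mul_one, ← ge_mul, map_sub, XX_ge, XX_ge, map_mul, toAdd_mul, aug_ge, one_mul,
      add_sub_cancel_left]
  | add a b ha hb => rw [add_mul, map_add, ha, hb, map_add, add_mul]
  | smul c a ha => rw [smul_mul_assoc, map_smul, ha, map_smul, smul_eq_mul, smul_eq_mul, mul_assoc]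

theorem sum_hom (χ : Γ →* Multiplicative (ZMod p)) (m : MM p x) :
    ∑ i, Multiplicative.toAdd (χ (x i)) * aug p Γ (m.1 i) = 0 := by
  have h1 : XX χ (Psi x m.1) = 0 := by
    rw [(mem_MM x).1 m.2, map_zero]
  rw [Psi, map_sum] at h1
  rw [← h1]
  exact Finset.sum_congr rfl fun i _ => by rw [XX_mul, mul_comm]

/-- the functional on `K ^ d` attached to a homomorphism -/
def ph (χ : Γ →* Multiplicative (ZMod p)) : Module.Dual (ZMod p) (Fin d → ZMod p) :=
  ∑ i, Multiplicative.toAdd (χ (x i)) • LinearMap.proj i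

theorem ph_apply (χ : Γ →* Multiplicative (ZMod p)) (c : Fin d → ZMod p) :
    ph x χ c = ∑ i, Multiplicative.toAdd (χ (x i)) * c i := by
  rw [ph, LinearMap.sum_apply]
  rfl

theorem ph_mem (χ : Γ →* Multiplicative (ZMod p)) :
    ph x χ ∈ LinearMap.ker (EE p x).dualMap := by
  rw [LinearMap.mem_ker]
  apply LinearMap.ext
  intro v
  obtain ⟨m, rfl⟩ := (JJ p x).mkQ_surjective v
  rw [LinearMap.dualMap_apply, EE_mk, ph_apply]
  exact sum_hom x χ m

theorem ph_inj (hx : Subgroup.closure (range x) = ⊤) :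
    Injective (ph x : (Γ →* Multiplicative (ZMod p)) → _) := by
  intro χ χ' h
  apply MonoidHom.eq_of_eqOn_dense hx
  rintro _ ⟨i, rfl⟩
  have h1 := LinearMap.congr_fun h (Pi.single i 1)
  rw [ph_apply, ph_apply, Finset.sum_eq_single i, Finset.sum_eq_single i, Pi.single_eq_same,
    mul_one, mul_one] at h1
  · exact Multiplicative.toAdd.injective h1
  · intro j _ hj
    rw [Pi.single_eq_of_ne hj, mul_zero]
  · intro h
    exact absurd (Finset.mem_univ i) h
  · intro j _ hj
    rw [Pi.single_eq_of_ne hj, mul_zero]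
  · intro h
    exact absurd (Finset.mem_univ i) h

theorem rank_le (hx : Subgroup.closure (range x) = ⊤) {h : ℕ}
    (hh : Nat.card (Γ →* Multiplicative (ZMod p)) = p ^ h) :
    Module.finrank (ZMod p) (LinearMap.range (EE p x).dualMap) + h ≤ d := by
  have h1 := LinearMap.finrank_range_add_finrank_ker (EE p x).dualMap
  rw [Subspace.dual_finrank_eq, Module.finrank_fin_fun] at h1
  have hfin : Finite (LinearMap.ker (EE p x).dualMap) := Module.finite_of_finite (ZMod p)
  have h2 : p ^ h ≤ p ^ Module.finrank (ZMod p) (LinearMap.ker (EE p x).dualMap) := by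
    have h3 := Module.natCard_eq_pow_finrank (K := ZMod p)
      (V := LinearMap.ker (EE p x).dualMap)
    rw [Nat.card_zmod] at h3
    rw [← h3, ← hh]
    apply Nat.card_le_card_of_injective
      (fun χ => (⟨ph x χ, ph_mem x χ⟩ : LinearMap.ker (EE p x).dualMap))
    intro χ χ' hχ
    exact ph_inj x hx (congrArg Subtype.val hχ)
  have h3 := (Nat.pow_le_pow_iff_right (Fact.out : p.Prime).one_lt).1 h2
  omega

/-! ### Generators modulo powers -/

theorem gen_pow {ι : Type} [Fintype ι] (w : ι → MM p x)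
    (hw : ⊤ ≤ Submodule.span (ZMod p) (range fun i => (JJ p x).mkQ (w i))) (n : ℕ) :
    ∀ m : MM p x, ∃ u : ι → KG p Γ, ∀ l, (m.1 - ∑ i, u i • (w i).1) l ∈ AI p Γ ^ n := by
  induction n with
  | zero =>
    intro m
    refine ⟨0, fun l => ?_⟩
    rw [Submodule.pow_zero, Ideal.one_eq_top]
    trivial
  | succ n ih =>
    -- elements of `J`
    have hJ : ∀ z ∈ JJ p x, ∃ u : ι → KG p Γ,
        ∀ l, (z.1 - ∑ i, u i • (w i).1) l ∈ AI p Γ ^ (n + 1) := by
      intro z hz
      refine Submodule.span_induction ?_ ?_ ?_ ?_ hz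
      · rintro _ ⟨g, m, rfl⟩
        obtain ⟨u, hu⟩ := ih m
        refine ⟨fun i => (ge p g - 1) * u i, fun l => ?_⟩
        have h1 : ((ge p g • m - m : MM p x).1 - ∑ i, ((ge p g - 1) * u i) • (w i).1) =
            (ge p g - 1) • (m.1 - ∑ i, u i • (w i).1) := by
          rw [smul_sub, Finset.smul_sum, sub_smul, one_smul]
          congr 1
          exact Finset.sum_congr rfl fun i _ => mul_smul _ _ _
        rw [h1, Pi.smul_apply, smul_eq_mul, add_comm n 1, Ideal.IsTwoSided.pow_add,
          Submodule.pow_one]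
        exact Ideal.mul_mem_mul (ge_sub_mem g) (hu l)
      · refine ⟨0, fun l => ?_⟩
        simp
      · rintro a b _ _ ⟨u, hu⟩ ⟨v, hv⟩
        refine ⟨u + v, fun l => ?_⟩
        have h1 : ((a + b : MM p x).1 - ∑ i, (u + v) i • (w i).1) =
            (a.1 - ∑ i, u i • (w i).1) + (b.1 - ∑ i, v i • (w i).1) := by
          simp only [Pi.add_apply, add_smul, Finset.sum_add_distrib]
          rw [Submodule.coe_add]
          abel
        rw [h1]
        exact Ideal.add_mem _ (hu l) (hv l)
      · rintro c a _ ⟨u, hu⟩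
        refine ⟨c • u, fun l => ?_⟩
        have h1 : ((c • a : MM p x).1 - ∑ i, (c • u) i • (w i).1) =
            c • (a.1 - ∑ i, u i • (w i).1) := by
          rw [smul_sub, Finset.smul_sum]
          congr 1
          exact Finset.sum_congr rfl fun i _ => by rw [Pi.smul_apply, smul_assoc]
        rw [h1, Pi.smul_apply]
        exact Submodule.smul_of_tower_mem _ c (hu l)
    intro m
    have h1 : (JJ p x).mkQ m ∈ Submodule.span (ZMod p) (range fun i => (JJ p x).mkQ (w i)) :=
      hw trivial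
    obtain ⟨c, hc⟩ := (Submodule.mem_span_range_iff_exists_fun _).1 h1
    have h2 : m - ∑ i, c i • w i ∈ JJ p x := by
      rw [← Submodule.Quotient.mk_eq_zero, ← Submodule.mkQ_apply, map_sub, map_sum, ← hc, sub_eq_zero]
      exact Finset.sum_congr rfl fun i _ => (map_smul _ _ _).symm
    obtain ⟨u, hu⟩ := hJ _ h2
    refine ⟨fun i => u i + c i • 1, fun l => ?_⟩
    have h3 : (m.1 - ∑ i, (u i + c i • (1 : KG p Γ)) • (w i).1) =
        ((m - ∑ i, c i • w i : MM p x).1 - ∑ i, u i • (w i).1) := by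
      have h4 : (m - ∑ i, c i • w i : MM p x).1 = m.1 - ∑ i, c i • (w i).1 := by
        rw [Submodule.coe_sub, Submodule.coe_sum]
        rfl
      rw [h4]
      have h5 : ∑ i, (u i + c i • (1 : KG p Γ)) • (w i).1 =
          ∑ i, u i • (w i).1 + ∑ i, c i • (w i).1 := by
        rw [← Finset.sum_add_distrib]
        exact Finset.sum_congr rfl fun i _ => by rw [add_smul, smul_assoc, one_smul]
      rw [h5]
      abel
    rw [h3]
    exact hu l

/-- **The inequality from the coinvariants.** -/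
theorem ineq_of_VV (hx : Subgroup.closure (range x) = ⊤) [Module.Finite (ZMod p) (VV p x)]
    {h h2 : ℕ} (hh : Nat.card (Γ →* Multiplicative (ZMod p)) = p ^ h)
    (hV : Module.finrank (ZMod p) (VV p x) ≤
      Module.finrank (ZMod p) (LinearMap.range (EE p x).dualMap) + h2) (n : ℕ) :
    h * b p Γ (n + 1) + 1 ≤ b p Γ (n + 2) + h2 * b p Γ n := by
  have h1 := rank_le x hx hh
  rw [LinearMap.finrank_range_dualMap_eq_finrank_range] at h1 hV
  have h3 := LinearMap.finrank_range_add_finrank_ker (EE p x)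
  obtain ⟨C, hC⟩ := Submodule.exists_isCompl (LinearMap.ker (EE p x))
  have h5 := Submodule.finrank_add_eq_of_isCompl hC
  set s := Module.finrank (ZMod p) (LinearMap.ker (EE p x)) with hs
  set t := Module.finrank (ZMod p) C with ht
  let bC : Module.Basis (Fin t) (ZMod p) C := Module.finBasisOfFinrankEq (ZMod p) C ht.symm
  let bK : Module.Basis (Fin s) (ZMod p) (LinearMap.ker (EE p x)) :=
    Module.finBasisOfFinrankEq (ZMod p) _ hs.symm
  choose w hw using fun i => (JJ p x).mkQ_surjective (bC i : VV p x)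
  choose ξ hξ using fun i => (JJ p x).mkQ_surjective (bK i : VV p x)
  have hspan : ⊤ ≤ Submodule.span (ZMod p)
      (range fun i : Fin t ⊕ Fin s => (JJ p x).mkQ (Sum.elim w ξ i)) := by
    rw [← hC.sup_eq_top, sup_le_iff]
    constructor
    · intro v hv
      have h6 := congrArg Subtype.val (bK.sum_repr ⟨v, hv⟩)
      rw [Submodule.coe_sum] at h6
      rw [show v = ∑ i, (bK.repr ⟨v, hv⟩ i • bK i : LinearMap.ker (EE p x)).1 from h6.symm]
      refine Submodule.sum_mem _ fun i _ => ?_
      rw [Submodule.coe_smul]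
      refine Submodule.smul_mem _ _ (Submodule.subset_span ⟨Sum.inr i, ?_⟩)
      exact hξ i
    · intro v hv
      have h6 := congrArg Subtype.val (bC.sum_repr ⟨v, hv⟩)
      rw [Submodule.coe_sum] at h6
      rw [show v = ∑ i, (bC.repr ⟨v, hv⟩ i • bC i : C).1 from h6.symm]
      refine Submodule.sum_mem _ fun i _ => ?_
      rw [Submodule.coe_smul]
      refine Submodule.smul_mem _ _ (Submodule.subset_span ⟨Sum.inl i, ?_⟩)
      exact hw i
  have h6 := gs_ineq2 x hx (fun i => (w i).1) (fun j => (ξ j).1) (by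
    intro j l
    rw [mem_AI]
    have h7 : EE p x (bK j : VV p x) = 0 := LinearMap.mem_ker.1 (bK j).2
    rw [← hξ j, EE_mk] at h7
    exact congrFun h7 l) (by
    intro a ha n
    obtain ⟨u, hu⟩ := gen_pow x (Sum.elim w ξ) hspan n ⟨a, (mem_MM x).2 ha⟩
    refine ⟨fun i => u (Sum.inl i), fun j => u (Sum.inr j), _, hu, ?_⟩
    rw [Fintype.sum_sum_type]
    simp only [Sum.elim_inl, Sum.elim_inr]
    abel) n
  have h7 : h * b p Γ (n + 1) + t * b p Γ (n + 1) ≤ d * b p Γ (n + 1) := by
    rw [← add_mul]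
    exact Nat.mul_le_mul_right _ (by omega)
  have h8 : s * b p Γ n ≤ h2 * b p Γ n := Nat.mul_le_mul_right _ (by omega)
  omega

end Pool.Agent.X277.PD
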